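import Mathlib
import Pool.Agent.H77.FB.Stmt
import Pool.Agent.H77.FB.Bridge
import Pool.Agent.H77.N2.All

/-!
For every polynomial `P` in two variables, the map
`Φ_P : (P · H(ℂ^2))^⊥ → Exp(ℂ^2) / P^* · Exp(ℂ^2)` is bijective.
-/

namespace Pool.Agent.Results.MP_6e521b_an.DimensionTwo

open Pool.Agent.H77.FB

/-- For every polynomial `P` in two variables, `Φ_P` is injective and surjective. -/
theorem result (P : MvPolynomial (Fin 2) ℂ) : PhiInjective P ∧ PhiSurjective P :=
  ⟨phiInjective P, Pool.Agent.H60.FB.surj_of_est P (Pool.Agent.H77.N2.est_two P)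
    fun _ hs => Pool.Agent.H60.FB.borel_repr hs⟩

end Pool.Agent.Results.MP_6e521b_an.DimensionTwo
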