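import Mathlib
import Pool.Agent.H77.FB.Stmt
import Pool.Agent.H77.FB.Bridge

namespace Pool.Agent.Results.MP_6e521b_an.Injective

open Pool.Agent.H77.FB

/-- For every number `n` of variables and every polynomial `P`, the map
`Φ_P : (P · H(ℂ^n))^⊥ → Exp(ℂ^n) / P^* · Exp(ℂ^n)` is injective. -/
theorem result (n : ℕ) (P : MvPolynomial (Fin n) ℂ) : PhiInjective P :=
  phiInjective P

end Pool.Agent.Results.MP_6e521b_an.Injective
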