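import Mathlib
import Pool.Agent.H77.FB.Stmt
import Pool.Agent.H77.FB.Bridge
import Pool.Agent.H5.LF.Main

/-!
Let `P = L_1 ⋯ L_m + R` in `n` variables, where each `L_i` is a polynomial of degree at most one,
not zero, and `R` is `o(∏ (1 + |L_i|))` at infinity (or `R = 0` and the `L_i` are arbitrary).
Then the map `Φ_P : (P · H(ℂ^n))^⊥ → Exp(ℂ^n) / P^* · Exp(ℂ^n)` is bijective.
-/

namespace Pool.Agent.Results.MP_6e521b_an.LinearFactors

open Pool.Agent.H77.FB MvPolynomial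

/-- `Φ_P` is injective and surjective for every product of polynomials of degree at most one
in `n` variables, and for its small perturbations. -/
theorem result {n m : ℕ} (a : Fin m → Fin n → ℂ) (c : Fin m → ℂ)
    (R : MvPolynomial (Fin n) ℂ)
    (hR : ∀ ε : ℝ, 0 < ε → ∃ M : ℝ, ∀ z : Fin n → ℂ, M ≤ ‖z‖ →
      ‖eval z R‖ ≤ ε * ∏ i, (1 + ‖(∑ j, a i j * z j) + c i‖))
    (hne : R = 0 ∨ ∀ i, a i ≠ 0 ∨ c i ≠ 0) :
    PhiInjective (∏ i, ((∑ j, C (a i j) * X j) + C (c i)) + R) ∧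
      PhiSurjective (∏ i, ((∑ j, C (a i j) * X j) + C (c i)) + R) :=
  ⟨phiInjective _, Pool.Agent.H60.FB.surj_of_est _ (Pool.Agent.H5.LF.est_pert a c R hR hne)
    fun _ hs => Pool.Agent.H60.FB.borel_repr hs⟩

end Pool.Agent.Results.MP_6e521b_an.LinearFactors
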