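import Mathlib
import Pool.Agent.H77.FB.Stmt
import Pool.Agent.H60.FB.Prod
import Pool.Agent.H37.FB.Homog
import Pool.Agent.H77.FB2.Deg2
import Pool.Agent.H77.N2.All

/-!
Surjectivity of `Φ_P` for products, in mutually orthogonal groups of variables, of polynomials
that depend on at most two linear forms, of polynomials of degree at most 2, of polynomials for
which every critical point of the leading form is a period, and of translates of homogeneous
polynomials.
-/

namespace Pool.Agent.Results.MP_6e521b_an.OrthogonalProducts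

open Pool.Agent.H77.FB Pool.Agent.H60.FB MvPolynomial

/-- `v` is a period of `P`. -/
def IsPeriod {n : ℕ} (P : MvPolynomial (Fin n) ℂ) (v : Fin n → ℂ) : Prop :=
  ∀ z, eval (z + v) P = eval z P

/-- `P` depends on at most two linear forms (those with coefficients `a` and `b`); or `P` has
degree at most 2; or every critical point of the leading form of `P` is a period of `P`; or `P`
is a translate of a homogeneous polynomial. -/
def Good {n : ℕ} (P : MvPolynomial (Fin n) ℂ) : Prop :=
  (∃ a b : Fin n → ℂ, ∀ v : Fin n → ℂ, ∑ l, a l * v l = 0 → ∑ l, b l * v l = 0 →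
    IsPeriod P v) ∨
  P.totalDegree ≤ 2 ∨
  (∀ v : Fin n → ℂ, (∀ j, eval v (pderiv j (homogeneousComponent P.totalDegree P)) = 0) →
    IsPeriod P v) ∨
  ∃ (m : ℕ) (Q : MvPolynomial (Fin n) ℂ) (a : Fin n → ℂ), Q.IsHomogeneous m ∧
    ∀ z, eval z P = eval (z + a) Q

/-- Let `P` be the product of `P_1, …, P_r`, where each `P_i` is good, and where every vector
orthogonal to all periods of `P_i` is a period of `P_j`, for `i ≠ j`. Then `Φ_P` is
surjective. -/
theorem result {n r : ℕ} (P : Fin r → MvPolynomial (Fin n) ℂ) (hgood : ∀ i, Good (P i))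
    (horth : ∀ i j, i ≠ j → ∀ v : Fin n → ℂ,
      (∀ u, IsPeriod (P i) u → ∑ l, v l * (starRingEnd ℂ) (u l) = 0) → IsPeriod (P j) v) :
    PhiSurjective (∏ i, P i) := by
  refine surj_of_est _ (est_prod Finset.univ P (fun i _ => ?_)
    fun i _ j _ hij v hv => horth i j hij v hv) (fun _ hs => borel_repr hs)
  rcases hgood i with ⟨a, b, h⟩ | h | h | ⟨m, Q, a, hQ, ha⟩
  · exact Pool.Agent.H77.N2.est_two_forms Pool.Agent.H77.N2.est_two (P i) a b h
  · exact Pool.Agent.H77.FB2.est_degree_two (P i) h
  · exact est_of_period (P i) h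
  · exact est_translate Q (P i) a ha (est_homog Q hQ)

end Pool.Agent.Results.MP_6e521b_an.OrthogonalProducts
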